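import Pool.Agent.MP_67f0e4_gt.K.Final

/-! A finite time singularity of four dimensional Ricci flow whose blow-up limit is a Ricci-flat
ALE space with cyclic group of order `n`, on the surface `x y = z ^ n - 1`. -/

namespace Pool.Agent.Results.MP_67f0e4_gt.GibbonsHawking

open Pool.Agent.MP_67f0e4_gt

theorem result (n : ℕ) (hn : 3 ≤ n) :
    ∃ _ : ChartedSpace (EuclideanSpace ℝ (Fin 4)) (H.surf n),
      H.IsSubmfd (EuclideanSpace ℝ (Fin 4)) (H.surf n) ∧
      H.HasALEBlowup (EuclideanSpace ℝ (Fin 4)) (H.surf n) n ∧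
      IsEmpty (H.surf n ≃ₜ H.tangentS2) :=
  K.main_of K.all n hn

end Pool.Agent.Results.MP_67f0e4_gt.GibbonsHawking
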